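import Pool.Agent.Y8.Stm3

/-!
Counting the singular points whose paths stay in the ball.
-/

set_option autoImplicit false

open MeasureTheory Set Metric
open scoped ContDiff

namespace Pool.Agent.Y535.B1

open H459R3.NS W221.NS Pool.Agent.Y8

noncomputable section

section

variable {T E D : ℝ} {G : Set ℝ} {u : ℝ → V → V} {p : ℝ → V → ℝ}

theorem aeG (h : Turb 1 T E D G u p) : Ioo 0 T =ᵐ[volume] G := by
  rw [ae_eq_set]
  refine ⟨h.fullG, ?_⟩
  rw [sdiff_eq_empty.2 h.subG]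
  exact measure_empty

theorem enst_intT (h : Turb 1 T E D G u p) :
    IntegrableOn (fun t => enstrophy (u t)) (Ioo 0 T) :=
  h.enst_int.congr_set_ae (aeG h)

theorem B2_ct (h : Turb 1 T E D G u p) (a : V) (ρ : ℝ) :
    ContinuousOn (fun t => B2 a ρ (u t)) G := by
  unfold B2
  exact pint_cont (F := fun t z => gsq (u t) z) h.openG
    (gsq_joint h.openG h.smooth_u).continuousOn a ρ

theorem B2_intG (h : Turb 1 T E D G u p) (a : V) (ρ : ℝ) :
    IntegrableOn (fun t => B2 a ρ (u t)) G := by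
  obtain ⟨C, hC, hb⟩ := ball_le ρ
  refine Integrable.mono' (g := fun t => C * enstrophy (u t)) (h.enst_int.const_mul C) ?_ ?_
  · exact (B2_ct h a ρ).aestronglyMeasurable h.openG.measurableSet
  · rw [ae_restrict_iff' h.openG.measurableSet]
    refine ae_of_all _ fun t ht => ?_
    have hu := h.spv ht
    have h0 : 0 ≤ B2 a ρ (u t) := integral_nonneg fun x => gsq_nn (u t) x
    rw [Real.norm_eq_abs, abs_of_nonneg h0, enst_eq hu.1]
    exact hb _ (gsq_sm hu.1).continuous (gsq_per hu.2) (gsq_nn (u t)) a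

theorem B2_intT (h : Turb 1 T E D G u p) (a : V) (ρ : ℝ) :
    IntegrableOn (fun t => B2 a ρ (u t)) (Ioo 0 T) :=
  (B2_intG h a ρ).congr_set_ae (aeG h)

theorem D_nn (h : Turb 1 T E D G u p) : 0 ≤ D :=
  (integral_nonneg fun t => enst_nn (u t)).trans h.enst_le

theorem B2_nn (a : V) (ρ : ℝ) (w : V → V) : 0 ≤ B2 a ρ w := integral_nonneg fun x => gsq_nn w x

theorem FF_nn (k : ℕ) (w : V → V) (x : V) : 0 ≤ FF k w x := by
  unfold FF avg
  have h1 : ∀ i ∈ Finset.range k, 0 ≤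
      (∫ y in ball x (2 ^ i / 2 ^ k), gsq w y) / (2 * (2 ^ i / 2 ^ k : ℝ)) ^ 3 := fun i _ =>
    div_nonneg (integral_nonneg fun y => gsq_nn w y) (by positivity)
  have h2 := Finset.sum_nonneg h1
  have h3 := enst_nn w
  positivity

theorem B2_mono {w : V → V} (hw : ContDiff ℝ ∞ w) {a b : V} {ρ σ : ℝ}
    (h : ‖a - b‖ + ρ ≤ σ) : B2 a ρ w ≤ B2 b σ w := by
  unfold B2
  refine setIntegral_mono_set (ballint (gsq_sm hw).continuous _ _)
    (ae_of_all _ fun z => gsq_nn w z) ?_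
  refine (ball_subset_ball' ?_).eventuallyLE
  rw [dist_eq_norm]
  linarith

theorem rr_pos (k : ℕ) : 0 < rr k := by unfold rr; positivity

theorem rr_anti {n k : ℕ} (h : n ≤ k) : rr k ≤ rr n := by
  unfold rr
  exact pow_le_pow_of_le_one (by norm_num) (by norm_num) h

theorem rr_eq (k : ℕ) : rr k = (2 ^ k)⁻¹ := by
  unfold rr
  rw [one_div, inv_pow]

/-- The bound along one path. -/
theorem win (h : Turb 1 T E D G u p) {n k : ℕ} (hnk : n ≤ k) {t₀ : ℝ} {x₀ : V}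
    (h0 : 0 < t₀ - rr n ^ 2) (hT : t₀ + rr n ^ 2 < T) {X : ℝ → V}
    (hX : ∀ t, |t - t₀| < rr k ^ 2 → ‖X t - x₀‖ ≤ rr n) :
    ∫ t in Ioo (-1 : ℝ) 0, FF k (u (t₀ + rr k ^ 2 / 32 + rr k ^ 2 * t))
      (X (t₀ + rr k ^ 2 / 32 + rr k ^ 2 * t)) ≤ 4 ^ k * ((16 ^ k)⁻¹ *
        ((∑ i ∈ Finset.range k, ((2 * (2 ^ i / 2 ^ k : ℝ)) ^ 3)⁻¹ *
          (∫ t in II n t₀, B2 x₀ (2 ^ i / 2 ^ k + rr n) (u t)))
            + ∫ t in II n t₀, enstrophy (u t))) := by
  set r := rr k with hr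
  have hr0 : 0 < r := rr_pos k
  have hr1 : r ^ 2 ≤ rr n ^ 2 := pow_le_pow_left₀ hr0.le (rr_anti hnk) 2
  set s := t₀ + r ^ 2 / 32 with hs
  have hr2 : 0 < r ^ 2 := by positivity
  have hII : II n t₀ ⊆ Ioo 0 T := by
    intro t ht
    unfold II at ht
    exact ⟨by linarith [ht.1], by linarith [ht.2]⟩
  have hsub : Ioo (s - r ^ 2) s ⊆ II n t₀ := by
    intro t ht
    unfold II
    exact ⟨by linarith [ht.1], by linarith [ht.2]⟩
  -- change of variables
  have e1 : ∫ t in Ioo (-1 : ℝ) 0, FF k (u (s + r ^ 2 * t)) (X (s + r ^ 2 * t)) =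
      (r ^ 2)⁻¹ * ∫ t in Ioo (s - r ^ 2) s, FF k (u t) (X t) := by
    rw [← integral_Ioc_eq_integral_Ioo, ← integral_Ioc_eq_integral_Ioo,
      ← intervalIntegral.integral_of_le (by norm_num), ← intervalIntegral.integral_of_le
      (by linarith), intervalIntegral.integral_comp_add_mul (f := fun t => FF k (u t) (X t))
      (c := r ^ 2) (by positivity) s, smul_eq_mul]
    congr 2
    · ring
    · ring
  rw [e1]
  have e2 : (r ^ 2)⁻¹ = 4 ^ k := by
    rw [hr, rr_eq, inv_pow, inv_inv, ← pow_mul, mul_comm, pow_mul]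
    norm_num
  rw [e2]
  refine mul_le_mul_of_nonneg_left ?_ (by positivity)
  -- the majorant
  set g : ℝ → ℝ := fun t => (16 ^ k)⁻¹ *
        (∑ i ∈ Finset.range k, ((2 * (2 ^ i / 2 ^ k : ℝ)) ^ 3)⁻¹ *
          B2 x₀ (2 ^ i / 2 ^ k + rr n) (u t) + enstrophy (u t)) with hg
  have g1 : IntegrableOn (fun t => ∑ i ∈ Finset.range k, ((2 * (2 ^ i / 2 ^ k : ℝ)) ^ 3)⁻¹ *
          B2 x₀ (2 ^ i / 2 ^ k + rr n) (u t)) (II n t₀) := by
    refine integrable_finsetSum _ fun i _ => ?_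
    exact (((B2_intT h x₀ _).mono_set hII).const_mul _)
  have g2 : IntegrableOn (fun t => enstrophy (u t)) (II n t₀) := (enst_intT h).mono_set hII
  have gi : IntegrableOn g (II n t₀) := (g1.add g2).const_mul _
  have gn : ∀ t, 0 ≤ g t := by
    intro t
    rw [hg]
    have h1 : 0 ≤ ∑ i ∈ Finset.range k, ((2 * (2 ^ i / 2 ^ k : ℝ)) ^ 3)⁻¹ *
          B2 x₀ (2 ^ i / 2 ^ k + rr n) (u t) := Finset.sum_nonneg fun i _ =>
      mul_nonneg (by positivity) (B2_nn _ _ _)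
    have h2 := enst_nn (u t)
    positivity
  have hfg : ∀ t ∈ Ioo (s - r ^ 2) s, t ∈ G → FF k (u t) (X t) ≤ g t := by
    intro t ht htG
    rw [hg]
    unfold FF avg
    have h1 : ‖X t - x₀‖ ≤ rr n := by
      refine hX t ?_
      rw [abs_lt]
      constructor
      · linarith [ht.1]
      · linarith [ht.2]
    have hu := h.spv htG
    rw [div_eq_inv_mul]
    refine mul_le_mul_of_nonneg_left ?_ (by positivity)
    refine add_le_add (Finset.sum_le_sum fun i _ => ?_) le_rfl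
    rw [div_eq_inv_mul]
    refine mul_le_mul_of_nonneg_left ?_ (by positivity)
    exact B2_mono hu.1 (by linarith)
  have hG' : ∀ᵐ t ∂(volume.restrict (Ioo (s - r ^ 2) s)), t ∈ G := by
    refine aeT h ?_ ?_
    · linarith
    · linarith
  calc ∫ t in Ioo (s - r ^ 2) s, FF k (u t) (X t) ≤ ∫ t in Ioo (s - r ^ 2) s, g t := by
        refine integral_mono_of_nonneg (ae_of_all _ fun t => FF_nn k _ _) (gi.mono_set hsub) ?_
        filter_upwards [hG', ae_restrict_mem measurableSet_Ioo] with t ht1 ht2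
        exact hfg t ht2 ht1
    _ ≤ ∫ t in II n t₀, g t := setIntegral_mono_set gi (ae_of_all _ gn) hsub.eventuallyLE
    _ = _ := by
        rw [hg, integral_const_mul, integral_add g1 g2, integral_finsetSum]
        · simp only [integral_const_mul]
        · intro i _
          exact (((B2_intT h x₀ _).mono_set hII).const_mul _)

end

theorem geo (k : ℕ) : ∑ i ∈ Finset.range k, ((8 : ℝ) ^ i)⁻¹ ≤ 2 := by
  have h1 : ∑ i ∈ Finset.range k, ((8 : ℝ) ^ i)⁻¹ = ∑ i ∈ Finset.range k, ((8 : ℝ)⁻¹) ^ i := by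
    simp only [inv_pow]
  rw [h1, geom_sum_eq (by norm_num)]
  have h2 : 0 ≤ ((8 : ℝ)⁻¹) ^ k := by positivity
  have h3 : ((8 : ℝ)⁻¹ ^ k - 1) / (8⁻¹ - 1) = (1 - (8 : ℝ)⁻¹ ^ k) * (8 / 7) := by
    field_simp
    ring
  rw [h3]
  nlinarith

theorem t_B1 : S_CRIT → S_SUMB → S_B1 := by
  rintro ⟨ε, hε, hcrit⟩ ⟨C, hC, hsum⟩
  refine ⟨8 * C / ε, by positivity, fun T E D G u p h n j hn S hS hz => ?_⟩
  have hD := D_nn h
  set k := n + j with hk
  have hnk : n ≤ k := by omega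
  have hrn := rr_pos n
  have hrk := rr_pos k
  have hr1 : rr k ^ 2 ≤ rr n ^ 2 := pow_le_pow_left₀ hrk.le (rr_anti hnk) 2
  have hrk2 : 0 < rr k ^ 2 := by positivity
  obtain ⟨hs1, hs2⟩ := hsum T E D G u p h n S hS
    (fun z hz' => ⟨(hz z hz').1.le, (hz z hz').2.1.le, (hz z hz').2.2.1⟩)
  -- the criterion at every point
  have key : ∀ z ∈ S, ε ≤ 4 ^ k * ((16 ^ k)⁻¹ *
        ((∑ i ∈ Finset.range k, ((2 * (2 ^ i / 2 ^ k : ℝ)) ^ 3)⁻¹ *
          (∫ t in II n z.1, B2 z.2 (2 ^ i / 2 ^ k + rr n) (u t)))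
            + ∫ t in II n z.1, enstrophy (u t))) := by
    intro z hzS
    obtain ⟨h0, hT, -, hsing, X, Y, B, C', hF, hX0, hX⟩ := hz z hzS
    refine le_trans ?_ (win h hnk h0 hT hX)
    refine hcrit T E D G u p h k (z.1 + rr k ^ 2 / 32) (by omega) ?_ ?_ X Y B C' hF z.1 ?_ ?_
    · linarith
    · linarith
    · constructor <;> linarith
    · rw [hX0]
      exact hsing
  have hsumm := Finset.sum_le_sum key
  rw [Finset.sum_const, nsmul_eq_mul, ← Finset.mul_sum, ← Finset.mul_sum, Finset.sum_add_distrib,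
    Finset.sum_comm] at hsumm
  simp only [← Finset.mul_sum] at hsumm
  have hrn1 : rr n ≤ 1 := by
    unfold rr
    exact pow_le_one₀ (by norm_num) (by norm_num)
  have hbd : ∀ i ∈ Finset.range k, ((2 * (2 ^ i / 2 ^ k : ℝ)) ^ 3)⁻¹ *
      (∑ z ∈ S, ∫ t in II n z.1, B2 z.2 (2 ^ i / 2 ^ k + rr n) (u t)) ≤
      C * D * 8 ^ k * ((8 ^ i)⁻¹ + (8 ^ j)⁻¹) := by
    intro i hi
    have hi' : i < k := Finset.mem_range.1 hi
    have a1 : (0 : ℝ) < 2 ^ i / 2 ^ k := by positivity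
    have a2 : (2 : ℝ) ^ i / 2 ^ k ≤ 1 := by
      rw [div_le_one (by positivity)]
      exact pow_le_pow_right₀ (by norm_num) hi'.le
    have h1 := hs1 (2 ^ i / 2 ^ k + rr n) (by linarith) (by linarith)
    have h2 : ((2 * (2 ^ i / 2 ^ k : ℝ)) ^ 3)⁻¹ *
      (∑ z ∈ S, ∫ t in II n z.1, B2 z.2 (2 ^ i / 2 ^ k + rr n) (u t)) ≤
      ((2 * (2 ^ i / 2 ^ k : ℝ)) ^ 3)⁻¹ * (C * ((2 ^ i / 2 ^ k + rr n) / rr n) ^ 3 * D) :=
      mul_le_mul_of_nonneg_left h1 (by positivity)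
    refine h2.trans ?_
    -- numbers
    have e8 : ∀ m : ℕ, (8 : ℝ) ^ m = (2 ^ m) ^ 3 := by
      intro m
      rw [← pow_mul, mul_comm, pow_mul]
      norm_num
    set a : ℝ := 2 ^ i with ha
    set b : ℝ := 2 ^ j with hb
    set c : ℝ := 2 ^ n with hc
    have hk2 : (2 : ℝ) ^ k = c * b := by rw [hk, pow_add]
    have hrn' : rr n = c⁻¹ := rr_eq n
    rw [e8, e8, e8, hk2, hrn', ← ha, ← hb]
    have a0 : 0 < a := by positivity
    have b0 : 0 < b := by positivity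
    have c0 : 0 < c := by positivity
    have h3 : (a / (c * b) + c⁻¹) / c⁻¹ = a / b + 1 := by
      field_simp
    rw [h3]
    have h4 : (a / b + 1) ^ 3 ≤ 4 * ((a / b) ^ 3 + 1) := by
      have : 0 ≤ a / b := by positivity
      nlinarith [mul_nonneg this (sq_nonneg (a / b - 1)), sq_nonneg (a / b - 1)]
    calc ((2 * (a / (c * b))) ^ 3)⁻¹ * (C * (a / b + 1) ^ 3 * D)
        ≤ ((2 * (a / (c * b))) ^ 3)⁻¹ * (C * (4 * ((a / b) ^ 3 + 1)) * D) := by
          gcongr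
      _ = C * D * (c * b) ^ 3 * ((1 / 2) * ((a ^ 3)⁻¹ + (b ^ 3)⁻¹)) := by
          field_simp
          ring
      _ ≤ _ := by
          refine mul_le_mul_of_nonneg_left ?_ (by positivity)
          have : 0 ≤ (a ^ 3)⁻¹ + (b ^ 3)⁻¹ := by positivity
          linarith
  have hbd2 := Finset.sum_le_sum hbd
  rw [← Finset.mul_sum, Finset.sum_add_distrib, Finset.sum_const, nsmul_eq_mul,
    Finset.card_range] at hbd2
  have hgeo := geo k
  have h8 : C * (rr n ^ 3)⁻¹ * D ≤ C * D * 8 ^ k := by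
    have e : (rr n ^ 3)⁻¹ = 8 ^ n := by
      rw [rr_eq, inv_pow, inv_inv, ← pow_mul, mul_comm, pow_mul]
      norm_num
    rw [e]
    have : (8 : ℝ) ^ n ≤ 8 ^ k := pow_le_pow_right₀ (by norm_num) hnk
    have h9 : 0 ≤ C * D := by positivity
    nlinarith
  -- conclusion
  have htot : (S.card : ℝ) * ε ≤ 4 ^ k * ((16 ^ k)⁻¹ * (C * D * 8 ^ k * (2 + k * (8 ^ j)⁻¹) +
      C * D * 8 ^ k)) := by
    refine hsumm.trans ?_
    refine mul_le_mul_of_nonneg_left (mul_le_mul_of_nonneg_left ?_ (by positivity))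
      (by positivity)
    refine add_le_add (hbd2.trans ?_) (hs2.trans h8)
    refine mul_le_mul_of_nonneg_left ?_ (by positivity)
    linarith
  have e3 : (4 : ℝ) ^ k * ((16 ^ k)⁻¹ * (C * D * 8 ^ k * (2 + k * (8 ^ j)⁻¹) + C * D * 8 ^ k)) =
      C * D * (2 ^ k * (3 + k * (8 ^ j)⁻¹)) := by
    have h16 : (16 : ℝ) ^ k = (2 ^ k) ^ 4 := by
      rw [← pow_mul, mul_comm, pow_mul]; norm_num
    have h4 : (4 : ℝ) ^ k = (2 ^ k) ^ 2 := by
      rw [← pow_mul, mul_comm, pow_mul]; norm_num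
    have h8 : (8 : ℝ) ^ k = (2 ^ k) ^ 3 := by
      rw [← pow_mul, mul_comm, pow_mul]; norm_num
    rw [h16, h4, h8]
    have : (0 : ℝ) < 2 ^ k := by positivity
    field_simp
    ring
  rw [e3] at htot
  have hkc : (k : ℝ) = n + j := by rw [hk]; push_cast; rfl
  have hfin : C * D * (2 ^ k * (3 + k * (8 ^ j)⁻¹)) ≤ 8 * C * D * (2 ^ k * (1 + (n + j) / 8 ^ j)) := by
    rw [div_eq_mul_inv, ← hkc]
    have h5 : 0 ≤ (k : ℝ) * (8 ^ j)⁻¹ := by positivity
    have h6 : (3 + k * (8 ^ j)⁻¹ : ℝ) ≤ 8 * (1 + k * (8 ^ j)⁻¹) := by linarith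
    calc C * D * (2 ^ k * (3 + k * (8 ^ j)⁻¹)) ≤ C * D * (2 ^ k * (8 * (1 + k * (8 ^ j)⁻¹))) := by
          gcongr
      _ = _ := by ring
  have hres : (S.card : ℝ) * ε ≤ 8 * C * D * (2 ^ k * (1 + (n + j) / 8 ^ j)) := htot.trans hfin
  rw [← le_div_iff₀ hε] at hres
  refine hres.trans (le_of_eq ?_)
  ring

end

end Pool.Agent.Y535.B1
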