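import Pool.Agent.Y8.Stm3
import Pool.Agent.W61.MD.FRAME

/-!
The Navier-Stokes equations in the moving frame at the regular times.
-/

set_option autoImplicit false

open MeasureTheory Set Metric
open scoped ContDiff

namespace Pool.Agent.Y535.WFO

open H459R3.NS W221.NS Pool.Agent.Y8 Pool.Agent.W61.MD.FRAME

noncomputable section

theorem t_WFO : S_WFO := by
  intro T E D G u p hu r s hr X hX hX' H hτ
  have hG : IsOpen G := hu.openG
  -- smooth components
  have hU : ∀ i, ContDiffOn ℝ ∞ (fun z : ℝ × V => u z.1 z.2 i) (G ×ˢ univ) := fun i =>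
    (contDiffOn_pi.1 hu.smooth_u) i
  have hP : ContDiffOn ℝ ∞ (fun z : ℝ × V => p z.1 z.2) (G ×ˢ univ) := hu.smooth_p
  have hopen : IsOpen (G ×ˢ (univ : Set V)) := hG.prod isOpen_univ
  have hXi : ∀ i, ContDiffOn ℝ ∞ (fun τ => X τ i) G := fun i => (contDiffOn_pi.1 hX) i
  have hX1 : ∀ i, ContDiffOn ℝ ∞ (deriv (fun τ => X τ i)) G := fun i =>
    (hXi i).deriv_of_isOpen hG (by simp)
  have hX2 : ∀ i, ContDiffOn ℝ ∞ (deriv (deriv (fun τ => X τ i))) G := fun i =>
    (hX1 i).deriv_of_isOpen hG (by simp)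
  -- the change of variables
  have hA : ContDiff ℝ ∞ (fun z : ℝ × V => s + r ^ 2 * z.1) := by fun_prop
  have hAm : MapsTo (fun z : ℝ × V => s + r ^ 2 * z.1) (H ×ˢ univ) G :=
    fun z hz => hτ z.1 hz.1
  have hΨ : ContDiffOn ℝ ∞ (fun z : ℝ × V => (s + r ^ 2 * z.1, X (s + r ^ 2 * z.1) + r • z.2))
      (H ×ˢ univ) := by
    refine hA.contDiffOn.prodMk ?_
    exact (hX.comp hA.contDiffOn hAm).add (by fun_prop)
  have hΨm : MapsTo (fun z : ℝ × V => (s + r ^ 2 * z.1, X (s + r ^ 2 * z.1) + r • z.2))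
      (H ×ˢ univ) (G ×ˢ univ) := fun z hz => ⟨hτ z.1 hz.1, mem_univ _⟩
  -- slices
  have hus : ∀ τ ∈ G, ∀ i, ContDiff ℝ ∞ (fun y => u τ y i) := fun τ h i =>
    slice_smooth (F := fun z : ℝ × V => u z.1 z.2 i) (hU i) h
  have hps : ∀ τ ∈ G, ContDiff ℝ ∞ (p τ) := fun τ h =>
    slice_smooth (F := fun z : ℝ × V => p z.1 z.2) hP h
  have hdiff : ∀ {f : V → ℝ}, ContDiff ℝ ∞ f → ∀ x, DifferentiableAt ℝ f x := fun hf x =>
    (hf.differentiable (by simp)) x
  have hpdsm : ∀ {f : V → ℝ}, ContDiff ℝ ∞ f → ∀ j, ContDiff ℝ ∞ (pd j f) := by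
    intro f hf j
    unfold pd
    exact (hf.fderiv_right (m := ∞) (by simp)).clm_apply contDiff_const
  -- first derivatives in the moving frame
  have hpv : ∀ t ∈ H, ∀ i j x, pd j (fun y => frv r s X u t y i) x =
      r ^ 2 * pd j (fun y => u (s + r ^ 2 * t) y i) (X (s + r ^ 2 * t) + r • x) := by
    intro t ht i j x
    have h1 := hus _ (hτ t ht) i
    have e1 : (fun y => frv r s X u t y i) = fun y =>
        r * ((fun y => u (s + r ^ 2 * t) y i) (X (s + r ^ 2 * t) + r • y)
          - deriv (fun τ => X τ i) (s + r ^ 2 * t)) := rfl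
    rw [e1, pd_const_mul, pd_sub_const, pd_affine _ _ _ _ (hdiff h1 _)]
    · ring
    · refine DifferentiableAt.sub_const ?_ _
      exact (hdiff h1 _).comp x (by fun_prop)
  refine ⟨?_, ?_, ?_, ?_⟩
  · -- smoothness of v
    rw [contDiffOn_pi]
    intro i
    have h1 := (hU i).comp hΨ hΨm
    have h2 := (hX1 i).comp hA.contDiffOn hAm
    exact contDiffOn_const.mul (h1.sub h2)
  · -- smoothness of q
    have h1 := hP.comp hΨ hΨm
    have h2 : ∀ i, ContDiffOn ℝ ∞ (fun z : ℝ × V =>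
        r ^ 3 * deriv (deriv (fun τ => X τ i)) (s + r ^ 2 * z.1) * z.2 i)
        (H ×ˢ univ) := by
      intro i
      have h3 := (hX2 i).comp hA.contDiffOn hAm
      refine (contDiffOn_const.mul h3).mul ?_
      fun_prop
    exact (contDiffOn_const.mul h1).add (ContDiffOn.sum fun i _ => h2 i)
  · -- divergence
    intro t ht x
    simp only [hpv t ht]
    rw [← Finset.mul_sum, hu.divfree _ (hτ t ht), mul_zero]
  · -- momentum
    intro t ht x i
    set τ := s + r ^ 2 * t with hτdef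
    have hτ1 : τ ∈ G := hτ t ht
    have hui := hus τ hτ1 i
    set Y : V := X τ + r • x with hY
    have hFd : DifferentiableAt ℝ (fun z : ℝ × V => u z.1 z.2 i) (τ, Y) :=
      ((hU i).contDiffAt (hopen.mem_nhds ⟨hτ1, mem_univ _⟩)).differentiableAt (by simp)
    have hXd : HasDerivAt X (mo r (u τ) (X τ)) τ := hX' τ hτ1
    have hXc : ∀ j, deriv (fun τ => X τ j) τ = mo r (u τ) (X τ) j := fun j =>
      ((hasDerivAt_pi.1 hXd) j).deriv
    have hX1d : DifferentiableAt ℝ (deriv (fun τ => X τ i)) τ :=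
      ((hX1 i).contDiffAt (hG.mem_nhds hτ1)).differentiableAt (by simp)
    have hAd : HasDerivAt (fun t' : ℝ => s + r ^ 2 * t') (r ^ 2) t := by
      have := ((hasDerivAt_id t).const_mul (r ^ 2)).const_add s
      simpa using this
    -- the time derivative
    have hcurve : HasDerivAt (fun t' : ℝ => (s + r ^ 2 * t', X (s + r ^ 2 * t') + r • x))
        (r ^ 2, r ^ 2 • mo r (u τ) (X τ)) t := by
      refine hAd.prodMk ?_
      have h1 : HasDerivAt (fun t' : ℝ => X (s + r ^ 2 * t')) (r ^ 2 • mo r (u τ) (X τ)) t :=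
        HasDerivAt.scomp t hXd hAd
      exact h1.add_const _
    have hd1 : HasDerivAt (fun t' : ℝ => u (s + r ^ 2 * t') (X (s + r ^ 2 * t') + r • x) i)
        (fderiv ℝ (fun z : ℝ × V => u z.1 z.2 i) (τ, Y) (r ^ 2, r ^ 2 • mo r (u τ) (X τ))) t := by
      have h0 : HasFDerivAt (fun z : ℝ × V => u z.1 z.2 i)
          (fderiv ℝ (fun z : ℝ × V => u z.1 z.2 i) (τ, Y))
          ((fun t' : ℝ => (s + r ^ 2 * t', X (s + r ^ 2 * t') + r • x)) t) := hFd.hasFDerivAt
      exact h0.comp_hasDerivAt t hcurve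
    rw [total hFd] at hd1
    have hd2 : HasDerivAt (fun t' : ℝ => deriv (fun τ => X τ i) (s + r ^ 2 * t'))
        (deriv (deriv (fun τ => X τ i)) τ * r ^ 2) t := by
      have h0 : HasDerivAt (deriv (fun τ => X τ i)) (deriv (deriv (fun τ => X τ i)) τ)
          ((fun t' : ℝ => s + r ^ 2 * t') t) := hX1d.hasDerivAt
      exact h0.comp t hAd
    have hd3 : deriv (fun s' => frv r s X u s' x i) t =
        r * ((r ^ 2 * deriv (fun s => u s Y i) τ + ∑ j, (r ^ 2 • mo r (u τ) (X τ)) j *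
          pd j (fun y => u τ y i) Y) - deriv (deriv (fun τ => X τ i)) τ * r ^ 2) :=
      ((hd1.sub hd2).const_mul r).deriv
    -- second derivatives
    have hpv2 : ∀ j, pd j (pd j (fun y => frv r s X u t y i)) x =
        r ^ 3 * pd j (pd j (fun y => u τ y i)) Y := by
      intro j
      have e1 : pd j (fun y => frv r s X u t y i) = fun x =>
          r ^ 2 * (pd j (fun y => u τ y i)) (X τ + r • x) := funext fun x => hpv t ht i j x
      have h2 := hpdsm hui j
      rw [e1, pd_const_mul, pd_affine _ _ _ _ (hdiff h2 _)]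
      · ring
      · exact (hdiff h2 _).comp x (by fun_prop)
    -- the pressure
    have hpq : pd i (frq r s X p t) x = r ^ 3 * pd i (p τ) Y +
        r ^ 3 * deriv (deriv (fun τ => X τ i)) τ := by
      have h1 := hps τ hτ1
      have e1 : frq r s X p t = fun y => r ^ 2 * (p τ) (X τ + r • y) +
          ∑ i, (fun i => r ^ 3 * deriv (deriv (fun τ => X τ i)) τ) i * y i := rfl
      rw [e1, pd_add, pd_const_mul, pd_affine _ _ _ _ (hdiff h1 _), pd_lin]
      · ring
      · exact (hdiff h1 _).comp x (by fun_prop)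
      · exact ((hdiff h1 _).comp x (by fun_prop)).const_mul _
      · fun_prop
    have hmom := hu.momentum τ hτ1 Y i
    rw [hd3, hpq]
    simp only [hpv t ht, hpv2]
    rw [← Finset.mul_sum]
    have e5 : ∑ j, (r ^ 2 • mo r (u τ) (X τ)) j * pd j (fun y => u τ y i) Y =
        r ^ 2 * ∑ j, mo r (u τ) (X τ) j * pd j (fun y => u τ y i) Y := by
      rw [Finset.mul_sum]
      refine Finset.sum_congr rfl fun j _ => ?_
      rw [Pi.smul_apply, smul_eq_mul]
      ring
    have e6 : ∑ j, frv r s X u t x j * (r ^ 2 * pd j (fun y => u (s + r ^ 2 * t) y i)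
        (X (s + r ^ 2 * t) + r • x)) = r ^ 3 * ∑ j, u τ Y j * pd j (fun y => u τ y i) Y -
        r ^ 3 * ∑ j, mo r (u τ) (X τ) j * pd j (fun y => u τ y i) Y := by
      rw [Finset.mul_sum, Finset.mul_sum, ← Finset.sum_sub_distrib]
      refine Finset.sum_congr rfl fun j _ => ?_
      have e7 : frv r s X u t x j = r * (u τ Y j - mo r (u τ) (X τ) j) := by
        show r * (u τ Y j - deriv (fun τ => X τ j) τ) = _
        rw [hXc]
      rw [e7]
      ring
    rw [e5, e6]
    linear_combination r ^ 3 * hmom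

end

end Pool.Agent.Y535.WFO
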